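import Pool.Agent.MWFE.StmtsA
import Pool.Agent.Helper81_MVD.MIR

set_option autoImplicit false

/-!
# Squad MWFE, row MIF (helper2): mirror images
-/

namespace Pool.Agent.MWFE.H2

open Pool.Agent.Helper14_MV Pool.Agent.Helper2_MV Pool.Agent.MVD
open Pool.Agent.MWE (Can XX fxy dxy dx dy up cp L4 pr Xs xl isx Fs nd nr)
open Pool.Agent.MWGR (cb)

theorem mul_rev {c w c' w' : List ℕ} (h : MVO.Sys.Mul c w) (hc : c' = c.reverse)
    (hw : w' = w.reverse) : MVO.Sys.Mul c' w' := by
  subst hc
  subst hw
  intro a ha
  rw [List.count_reverse]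
  exact h a (List.mem_reverse.1 ha)

theorem rr_of {β : FIC} {u v u' v' : List ℕ} (h : RR (mir β) u v) (hu : u.reverse = u')
    (hv : v.reverse = v') : RR β u' v' := by
  subst hu
  subst hv
  exact h

theorem to_rr {β : FIC} {u v u' v' : List ℕ} (h : RR β u' v') (hu : u.reverse = u')
    (hv : v.reverse = v') : RR (mir β) u v := by
  subst hu
  subst hv
  exact h

/-- the exchange of the letters `2`, `3` -/
def sw (i : ℕ) : List ℕ := if i = 2 then [3] else if i = 3 then [2] else [i]

theorem sw_rep (k : ℕ) : (List.replicate k 0).flatMap sw = List.replicate k 0 := by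
  induction k with
  | zero => rfl
  | succ k ih => rw [List.replicate_succ, List.flatMap_cons, ih]; rfl

theorem mif : MifStmt := by
  intro n β
  obtain ⟨-, m1, -, m3, -, -, -, -, -, -, -, -, mf, mz, -, -⟩ := Pool.Agent.MVD.H81.mir β
  refine ⟨m1, m3, ?_, ?_, ?_, ?_, mz.2, mf.2, ?_⟩
  · intro h
    exact to_rr h (List.reverse_replicate ..) (List.reverse_replicate ..)
  · intro h p w w' q x hm
    have h1 := h q.reverse w'.reverse w.reverse p.reverse x
      (mul_rev hm (by simp) (by simp [List.append_assoc]))
    exact to_rr h1 (by simp [List.append_assoc]) (by simp [List.append_assoc])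
  · intro h
    exact to_rr (RR.symm (β := β) h) rfl rfl
  · intro h
    have h1 := RR.sub (β := β) sw h
    refine to_rr h1 (by decide) ?_
    unfold MWZ.X
    simp only [List.reverse_append, List.reverse_cons, List.reverse_replicate, List.flatMap_append,
      List.flatMap_cons, sw_rep, List.append_assoc, List.singleton_append, List.cons_append,
      List.nil_append]
    rfl
  · intro h p q w r x a b hxa hxb hab hm
    have h1 := h p.reverse q.reverse w.reverse r.reverse x b a hxb hxa (Ne.symm hab)
      (mul_rev hm rfl (by simp [List.append_assoc]))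
    exact rr_of h1 (by simp [List.append_assoc]) (by simp [List.append_assoc])

end Pool.Agent.MWFE.H2
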